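import Mathlib

set_option autoImplicit false

namespace Pool.Agent.Results.MP_916daf_an.NoWeight

open Matrix Complex

/-- The sesquilinear form `a(u,v) = ⟨A u, v⟩` of a matrix on the space of square integrable
functions on a two point set with counting measure. -/
noncomputable def form (A : Matrix (Fin 2) (Fin 2) ℂ) (u v : Fin 2 → ℂ) : ℂ :=
  ∑ i, (A.mulVec u) i * (starRingEnd ℂ) (v i)

/-- The form is sectorial: `|Im a(u,u)| ≤ C Re a(u,u)` for some `C`. -/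
def Sectorial (A : Matrix (Fin 2) (Fin 2) ℂ) : Prop :=
  ∃ C : ℝ, ∀ u : Fin 2 → ℂ, |(form A u u).im| ≤ C * (form A u u).re

/-- `S` is the semigroup (group) generated by `-A`. -/
def IsSemigroupOf (A : Matrix (Fin 2) (Fin 2) ℂ) (S : ℝ → Matrix (Fin 2) (Fin 2) ℂ) : Prop :=
  S 0 = 1 ∧ ∀ (t : ℝ) (f : Fin 2 → ℂ),
    HasDerivAt (fun s => (S s).mulVec f) (-(A.mulVec ((S t).mulVec f))) t

/-- Uniform boundedness for the supremum norm. -/
def LinftyBounded (S : ℝ → Matrix (Fin 2) (Fin 2) ℂ) : Prop :=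
  ∃ M : ℝ, ∀ t, 0 ≤ t → ∀ f : Fin 2 → ℂ, ‖(S t).mulVec f‖ ≤ M * ‖f‖

/-- Contractivity for the weight `g`. -/
def ContractiveFor (g : Fin 2 → ℝ) (S : ℝ → Matrix (Fin 2) (Fin 2) ℂ) : Prop :=
  ∀ t, 0 ≤ t → ∀ f : Fin 2 → ℂ,
    ‖(fun i => (g i : ℂ) * (S t).mulVec f i)‖ ≤ ‖(fun i => (g i : ℂ) * f i)‖

noncomputable def A0 : Matrix (Fin 2) (Fin 2) ℂ := !![1, 2; -2, 1]

noncomputable def S0 (t : ℝ) : Matrix (Fin 2) (Fin 2) ℂ :=
  !![((Real.exp (-t) * Real.cos (2 * t) : ℝ) : ℂ), ((-(Real.exp (-t) * Real.sin (2 * t)) : ℝ) : ℂ);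
    ((Real.exp (-t) * Real.sin (2 * t) : ℝ) : ℂ), ((Real.exp (-t) * Real.cos (2 * t) : ℝ) : ℂ)]

lemma S0_mulVec (t : ℝ) (f : Fin 2 → ℂ) : (S0 t).mulVec f =
    ![((Real.exp (-t) * Real.cos (2 * t) : ℝ) : ℂ) * f 0 +
        ((-(Real.exp (-t) * Real.sin (2 * t)) : ℝ) : ℂ) * f 1,
      ((Real.exp (-t) * Real.sin (2 * t) : ℝ) : ℂ) * f 0 +
        ((Real.exp (-t) * Real.cos (2 * t) : ℝ) : ℂ) * f 1] := by
  funext i
  fin_cases i <;> simp [S0, Matrix.mulVec, dotProduct, Fin.sum_univ_two]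

lemma sector : Sectorial A0 := by
  refine ⟨2, fun u => ?_⟩
  have h : form A0 u u = (((Complex.normSq (u 0) + Complex.normSq (u 1) : ℝ)) : ℂ) +
      ((4 * ((u 1).im * (u 0).re - (u 1).re * (u 0).im) : ℝ) : ℂ) * Complex.I := by
    simp only [form, A0, Matrix.mulVec, dotProduct, Fin.sum_univ_two]
    apply Complex.ext <;> simp [Complex.normSq_apply] <;> ring
  rw [h]
  simp only [Complex.add_im, Complex.ofReal_im, Complex.mul_im, Complex.ofReal_re, Complex.I_im,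
    Complex.I_re, Complex.add_re, Complex.mul_re, mul_one, mul_zero, zero_add, add_zero, sub_self,
    Complex.normSq_apply]
  rw [abs_le]
  constructor <;> nlinarith [sq_nonneg ((u 1).im - (u 0).re), sq_nonneg ((u 1).im + (u 0).re),
    sq_nonneg ((u 1).re - (u 0).im), sq_nonneg ((u 1).re + (u 0).im)]

lemma isSg : IsSemigroupOf A0 S0 := by
  constructor
  · ext i j
    fin_cases i <;> fin_cases j <;> simp [S0]
  · intro t f
    have hc : HasDerivAt (fun s : ℝ => Real.exp (-s) * Real.cos (2 * s))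
        (-(Real.exp (-t) * Real.cos (2 * t)) - 2 * (Real.exp (-t) * Real.sin (2 * t))) t := by
      have h1 : HasDerivAt (fun s : ℝ => Real.exp (-s)) (Real.exp (-t) * (-1)) t :=
        (hasDerivAt_neg t).exp
      have h2 : HasDerivAt (fun s : ℝ => Real.cos (2 * s)) (-Real.sin (2 * t) * (2 * 1)) t :=
        ((hasDerivAt_id t).const_mul 2).cos
      exact (h1.fun_mul h2).congr_deriv (by ring)
    have hs : HasDerivAt (fun s : ℝ => Real.exp (-s) * Real.sin (2 * s))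
        (-(Real.exp (-t) * Real.sin (2 * t)) + 2 * (Real.exp (-t) * Real.cos (2 * t))) t := by
      have h1 : HasDerivAt (fun s : ℝ => Real.exp (-s)) (Real.exp (-t) * (-1)) t :=
        (hasDerivAt_neg t).exp
      have h2 : HasDerivAt (fun s : ℝ => Real.sin (2 * s)) (Real.cos (2 * t) * (2 * 1)) t :=
        ((hasDerivAt_id t).const_mul 2).sin
      exact (h1.fun_mul h2).congr_deriv (by ring)
    rw [hasDerivAt_pi]
    intro i
    fin_cases i
    · simp only [S0_mulVec]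
      have h3 := ((hc.ofReal_comp).mul_const (f 0)).fun_add ((hs.fun_neg.ofReal_comp).mul_const (f 1))
      refine h3.congr_deriv ?_
      simp only [A0, Matrix.mulVec, dotProduct, Fin.sum_univ_two, Pi.neg_apply]
      simp
      push_cast
      ring
    · simp only [S0_mulVec]
      have h3 := ((hs.ofReal_comp).mul_const (f 0)).fun_add ((hc.ofReal_comp).mul_const (f 1))
      refine h3.congr_deriv ?_
      simp only [A0, Matrix.mulVec, dotProduct, Fin.sum_univ_two, Pi.neg_apply]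
      simp
      push_cast
      ring

lemma coef_le (t : ℝ) (ht : 0 ≤ t) (x : ℝ) (hx : |x| ≤ 1) : ‖((Real.exp (-t) * x : ℝ) : ℂ)‖ ≤ 1 := by
  rw [Complex.norm_real, Real.norm_eq_abs, abs_mul, abs_of_pos (Real.exp_pos _)]
  have h1 : Real.exp (-t) ≤ 1 := Real.exp_le_one_iff.2 (by linarith)
  calc Real.exp (-t) * |x| ≤ 1 * 1 := mul_le_mul h1 hx (abs_nonneg _) zero_le_one
    _ = 1 := one_mul 1

lemma bdd : LinftyBounded S0 := by
  refine ⟨2, fun t ht f => ?_⟩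
  rw [S0_mulVec, pi_norm_le_iff_of_nonneg (by positivity)]
  have hc := coef_le t ht (Real.cos (2 * t)) (Real.abs_cos_le_one _)
  have hs := coef_le t ht (Real.sin (2 * t)) (Real.abs_sin_le_one _)
  have hs' : ‖((-(Real.exp (-t) * Real.sin (2 * t)) : ℝ) : ℂ)‖ ≤ 1 := by
    rw [Complex.ofReal_neg, norm_neg]; exact hs
  have h0 := norm_le_pi_norm f 0
  have h1 := norm_le_pi_norm f 1
  intro i
  fin_cases i
  · refine le_trans (norm_add_le _ _) ?_
    rw [norm_mul, norm_mul]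
    nlinarith [norm_nonneg (f 0), norm_nonneg (f 1)]
  · refine le_trans (norm_add_le _ _) ?_
    rw [norm_mul, norm_mul]
    nlinarith [norm_nonneg (f 0), norm_nonneg (f 1)]

lemma num : 1 < Real.exp (-(1 / 10)) * (Real.cos (2 * (1 / 10)) + Real.sin (2 * (1 / 10))) := by
  have h1 : 9 / 10 ≤ Real.exp (-(1 / 10)) := by
    have := Real.add_one_le_exp (-(1 / 10 : ℝ)); linarith
  have h2 : 98 / 100 ≤ Real.cos (2 * (1 / 10)) := by
    have := Real.one_sub_sq_div_two_le_cos (x := (2 * (1 / 10) : ℝ)); norm_num at this ⊢; linarith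
  have h3 : 19 / 100 ≤ Real.sin (2 * (1 / 10)) := by
    have := Real.sin_gt_sub_cube (x := (2 * (1 / 10) : ℝ)) (by norm_num)
    norm_num at this ⊢; linarith
  nlinarith

lemma no_weight (g : Fin 2 → ℝ) (hg : ∀ i, 0 < g i) : ¬ ContractiveFor g S0 := by
  intro h
  have hg0 : (g 0 : ℂ) ≠ 0 := by exact_mod_cast (hg 0).ne'
  have hg1 : (g 1 : ℂ) ≠ 0 := by exact_mod_cast (hg 1).ne'
  have hn := num
  have hsin : 0 ≤ Real.sin (2 * (1 / 10)) := by
    have := Real.sin_gt_sub_cube (x := (2 * (1 / 10) : ℝ)) (by norm_num)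
    norm_num at this ⊢; linarith
  have hexp := Real.exp_pos (-(1 / 10))
  rcases le_total (g 1) (g 0) with hle | hle
  · have h1 := h (1 / 10) (by norm_num) ![(g 0 : ℂ)⁻¹, -(g 1 : ℂ)⁻¹]
    have h2 : ‖(fun i => (g i : ℂ) * (![(g 0 : ℂ)⁻¹, -(g 1 : ℂ)⁻¹] : Fin 2 → ℂ) i)‖ ≤ 1 := by
      rw [pi_norm_le_iff_of_nonneg zero_le_one]
      intro i
      fin_cases i <;> simp [hg0, hg1]
    have h3 := le_trans (norm_le_pi_norm _ 0) (le_trans h1 h2)
    rw [S0_mulVec] at h3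
    have h4 : (g 0 : ℂ) * (![((Real.exp (-(1 / 10)) * Real.cos (2 * (1 / 10)) : ℝ) : ℂ) * (![(g 0 : ℂ)⁻¹, -(g 1 : ℂ)⁻¹] : Fin 2 → ℂ) 0 +
        ((-(Real.exp (-(1 / 10)) * Real.sin (2 * (1 / 10))) : ℝ) : ℂ) * (![(g 0 : ℂ)⁻¹, -(g 1 : ℂ)⁻¹] : Fin 2 → ℂ) 1,
      ((Real.exp (-(1 / 10)) * Real.sin (2 * (1 / 10)) : ℝ) : ℂ) * (![(g 0 : ℂ)⁻¹, -(g 1 : ℂ)⁻¹] : Fin 2 → ℂ) 0 +
        ((Real.exp (-(1 / 10)) * Real.cos (2 * (1 / 10)) : ℝ) : ℂ) * (![(g 0 : ℂ)⁻¹, -(g 1 : ℂ)⁻¹] : Fin 2 → ℂ) 1] : Fin 2 → ℂ) 0 =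
        ((Real.exp (-(1 / 10)) * (Real.cos (2 * (1 / 10)) + g 0 / g 1 * Real.sin (2 * (1 / 10))) : ℝ) : ℂ) := by
      simp only [Matrix.cons_val_zero, Matrix.cons_val_one]
      push_cast
      field_simp
    rw [h4, Complex.norm_real, Real.norm_eq_abs] at h3
    have h5 := le_trans (le_abs_self _) h3
    have h6 : 1 ≤ g 0 / g 1 := (one_le_div (hg 1)).2 hle
    have h7 : Real.sin (2 * (1 / 10)) ≤ g 0 / g 1 * Real.sin (2 * (1 / 10)) := by nlinarith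
    nlinarith
  · have h1 := h (1 / 10) (by norm_num) ![(g 0 : ℂ)⁻¹, (g 1 : ℂ)⁻¹]
    have h2 : ‖(fun i => (g i : ℂ) * (![(g 0 : ℂ)⁻¹, (g 1 : ℂ)⁻¹] : Fin 2 → ℂ) i)‖ ≤ 1 := by
      rw [pi_norm_le_iff_of_nonneg zero_le_one]
      intro i
      fin_cases i <;> simp [hg0, hg1]
    have h3 := le_trans (norm_le_pi_norm _ 1) (le_trans h1 h2)
    rw [S0_mulVec] at h3
    have h4 : (g 1 : ℂ) * (![((Real.exp (-(1 / 10)) * Real.cos (2 * (1 / 10)) : ℝ) : ℂ) * (![(g 0 : ℂ)⁻¹, (g 1 : ℂ)⁻¹] : Fin 2 → ℂ) 0 +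
        ((-(Real.exp (-(1 / 10)) * Real.sin (2 * (1 / 10))) : ℝ) : ℂ) * (![(g 0 : ℂ)⁻¹, (g 1 : ℂ)⁻¹] : Fin 2 → ℂ) 1,
      ((Real.exp (-(1 / 10)) * Real.sin (2 * (1 / 10)) : ℝ) : ℂ) * (![(g 0 : ℂ)⁻¹, (g 1 : ℂ)⁻¹] : Fin 2 → ℂ) 0 +
        ((Real.exp (-(1 / 10)) * Real.cos (2 * (1 / 10)) : ℝ) : ℂ) * (![(g 0 : ℂ)⁻¹, (g 1 : ℂ)⁻¹] : Fin 2 → ℂ) 1] : Fin 2 → ℂ) 1 =
        ((Real.exp (-(1 / 10)) * (Real.cos (2 * (1 / 10)) + g 1 / g 0 * Real.sin (2 * (1 / 10))) : ℝ) : ℂ) := by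
      simp only [Matrix.cons_val_zero, Matrix.cons_val_one]
      push_cast
      field_simp
      ring
    rw [h4, Complex.norm_real, Real.norm_eq_abs] at h3
    have h5 := le_trans (le_abs_self _) h3
    have h6 : 1 ≤ g 1 / g 0 := (one_le_div (hg 0)).2 hle
    have h7 : Real.sin (2 * (1 / 10)) ≤ g 1 / g 0 * Real.sin (2 * (1 / 10)) := by nlinarith
    nlinarith

/-- A sectorial form on a two point space whose semigroup is bounded for the supremum norm and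
contractive for no weighted supremum norm. -/
theorem result : ∃ (A : Matrix (Fin 2) (Fin 2) ℂ) (S : ℝ → Matrix (Fin 2) (Fin 2) ℂ),
    Sectorial A ∧ IsSemigroupOf A S ∧ LinftyBounded S ∧
    ∀ g : Fin 2 → ℝ, (∀ i, 0 < g i) → ¬ ContractiveFor g S :=
  ⟨A0, S0, sector, isSg, bdd, no_weight⟩

end Pool.Agent.Results.MP_916daf_an.NoWeight
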